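import Pool.Agent.Y642.ND.Stm

/-!
Project ND (helper642), job BAS: degrees, a basis of monomials and its discriminant.
-/

set_option autoImplicit false

open Finset Polynomial Module

universe u

namespace Pool.Agent.Y756.ND

open Pool.Agent.Y642.ND

theorem deg : S_DEG := by
  intro F _ _ x f hf hx
  have hd : f.natDegree ≠ 0 := by
    intro h0
    rw [natDegree_eq_zero] at h0
    obtain ⟨a, ha⟩ := h0
    rw [← ha, aeval_C] at hx
    have h1 : a = 0 := by
      have h2 : ((a : ℤ) : F) = 0 := by simpa using hx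
      exact_mod_cast h2
    rw [h1, C_0] at ha
    exact hf.ne_zero ha.symm
  have hp : f.IsPrimitive := hf.isPrimitive hd
  have hq : Irreducible (f.map (Int.castRingHom ℚ)) :=
    (IsPrimitive.Int.irreducible_iff_irreducible_map_cast hp).1 hf
  have hx2 : aeval x (f.map (Int.castRingHom ℚ)) = 0 := by
    have h1 := aeval_map_algebraMap ℚ x f
    rw [hx] at h1
    exact h1
  have h3 := minpoly.eq_of_irreducible hq hx2
  have h4 : (minpoly ℚ x).natDegree = f.natDegree := by
    rw [← h3, natDegree_mul_C, natDegree_map_eq_of_injective (RingHom.injective_int _)]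
    rw [Ne, inv_eq_zero, leadingCoeff_eq_zero]
    exact hq.ne_zero
  have hint : IsIntegral ℚ x := Algebra.IsIntegral.isIntegral x
  have h5 := IntermediateField.adjoin.finrank hint
  have h6 := Module.finrank_mul_finrank ℚ (IntermediateField.adjoin ℚ {x}) F
  refine ⟨finrank (IntermediateField.adjoin ℚ {x}) F, ?_⟩
  rw [← h4, ← h5, mul_comm]
  exact h6

theorem t : S_BAS.{u} := by
  intro F _ _ n x M hspan
  classical
  obtain ⟨b, hbs, hb1, hb2⟩ := exists_linearIndependent ℚ
    {z : F | ∃ k : Fin n → ℕ, (∀ j, k j ≤ M j) ∧ z = ∏ j, x j ^ k j}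
  rw [hspan] at hb1
  obtain ⟨B, hB⟩ : ∃ B : Basis b ℚ F, ∀ i, B i = (i : F) := by
    refine ⟨Basis.mk hb2 ?_, fun i => ?_⟩
    · rw [Subtype.range_coe, hb1]
    · rw [Basis.mk_apply]
  have hfin : Fintype b := FiniteDimensional.fintypeBasisIndex B
  have hcard : Fintype.card b = finrank ℚ F := (Module.finrank_eq_card_basis B).symm
  obtain ⟨e0⟩ : Nonempty (b ≃ Fin (finrank ℚ F)) := ⟨Fintype.equivFinOfCardEq hcard⟩
  have hl : ∀ k : Fin (finrank ℚ F), ∃ l : Fin n → ℕ, (∀ j, l j ≤ M j) ∧
      ((e0.symm k : b) : F) = ∏ j, x j ^ l j := fun k => hbs (e0.symm k).2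
  choose l hl1 hl2 using hl
  have hBr : ∀ k, (B.reindex e0) k = ∏ j, x j ^ l k j := by
    intro k
    rw [Basis.reindex_apply, hB, hl2]
  refine ⟨l, Algebra.discr ℚ (B.reindex e0), hl1, Algebra.discr_not_zero_of_basis ℚ _, ?_⟩
  intro Ω _ _ _ e
  have h1 := Algebra.discr_eq_det_embeddingsMatrixReindex_pow_two ℚ Ω (B.reindex e0)
    (e.trans (RingHom.equivRatAlgHom F Ω))
  rw [eq_ratCast] at h1
  rw [h1]
  congr 1
  rw [← Matrix.det_transpose]
  congr 1
  ext i k
  have h2 : Algebra.embeddingsMatrixReindex ℚ Ω (B.reindex e0)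
      (e.trans (RingHom.equivRatAlgHom F Ω)) k i = e i ((B.reindex e0) k) := by
    simp [Algebra.embeddingsMatrixReindex, Algebra.embeddingsMatrix, Matrix.reindex_apply,
      Matrix.submatrix_apply]
  rw [Matrix.transpose_apply, h2, hBr, map_prod, Matrix.of_apply]
  exact prod_congr rfl fun j _ => map_pow _ _ _

end Pool.Agent.Y756.ND
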